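import Mathlib
import Pool.Agent.Helper22.GC.Riesz
import Pool.Agent.Helper22.GC.Omega
import Pool.Agent.Helper22.RZ.Core
import Pool.Agent.Helper78.GC.Indep

/-!
# Product inequality for the extreme values of the circle error: definitions
-/

open Filter
open scoped Real

namespace Pool.Agent.Helper60.GP

open Pool.Agent.Helper22.GC Pool.Agent.Helper53.OM Pool.Agent.Helper22.RZ

noncomputable section

/-- the combination `Σ x_q √q` -/
def lin (T : Finset ℕ) (x : T → ℤ) : ℝ := ∑ q : T, (x q : ℝ) * √((q : ℕ) : ℝ)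

/-- the number of nonzero entries -/
def nz (T : Finset ℕ) (x : T → ℤ) : ℕ := (Finset.univ.filter (fun q : T => x q ≠ 0)).card

/-- no relation with coefficients `-1, 0, 1` at the scale `1 / Q` -/
def Sep (Q : ℝ) (T : Finset ℕ) : Prop := ∀ x ∈ idx T, x ≠ 0 → 1 / Q ≤ |lin T x|

end

end Pool.Agent.Helper60.GP
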