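import Mathlib
import Pool.Agent.Helper60.GP.Defs

/-!
# The average of the Riesz product against the smoothed series
-/

open Filter MeasureTheory Set
open scoped Real Topology

namespace Pool.Agent.Helper60.GP

open Pool.Agent.Helper22.GC Pool.Agent.Helper53.OM Pool.Agent.Helper22.RZ

noncomputable section

/-! ### The expansion of the Riesz product -/

lemma prod_Ar (σ : ℝ) (T : Finset ℕ) (x : T → ℤ) :
    ∏ q : T, Ar σ (x q) = (((σ / 2) ^ nz T x : ℝ) : ℂ) * ee (-(3 / 8) * ∑ q : T, (x q : ℝ)) := by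
  classical
  have h1 : ∀ q : T, Ar σ (x q) = (if x q ≠ 0 then ((σ / 2 : ℝ) : ℂ) else 1) * ee (-(3 / 8) * (x q : ℝ)) := by
    intro q
    rw [Ar]
    by_cases h : x q = 0
    · rw [if_pos h, if_neg (by simpa using h), h]
      simp [ee_zero]
    · rw [if_neg h, if_pos h]
      push_cast
      ring
  simp_rw [h1]
  rw [Finset.prod_mul_distrib]
  congr 1
  · rw [Finset.prod_ite, Finset.prod_const, Finset.prod_const_one, mul_one, nz]
    push_cast
    rfl
  · have hexp : ∀ (S : Finset T), ∏ q ∈ S, ee (-(3 / 8) * (x q : ℝ))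
        = ee (-(3 / 8) * ∑ q ∈ S, (x q : ℝ)) := by
      intro S
      induction S using Finset.induction_on with
      | empty => simp [ee_zero]
      | insert a S ha ih =>
        rw [Finset.prod_insert ha, Finset.sum_insert ha, ih, ← ee_add]
        congr 1; ring
    exact hexp Finset.univ

lemma re_ee (t : ℝ) : (ee t).re = Real.cos (2 * π * t) := by
  have e1 : ee t = Complex.exp (((2 * π * t : ℝ) : ℂ) * Complex.I) := by
    rw [ee]; congr 1; push_cast; ring
  rw [e1, Complex.exp_ofReal_mul_I_re]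

lemma Wr_mul_re (σ : ℝ) (T : Finset ℕ) (y s : ℝ) :
    Wr σ T y * Real.cos (2 * π * s) =
      ∑ x ∈ idx T, (σ / 2) ^ nz T x *
        Real.cos (2 * π * (lin T x * y - 3 / 8 * (∑ q : T, (x q : ℝ)) - s)) := by
  classical
  have h1 : Wr σ T y * Real.cos (2 * π * s) = (((Wr σ T y : ℝ) : ℂ) * ee (-s)).re := by
    rw [Complex.re_ofReal_mul, re_ee]
    congr 1
    rw [show 2 * π * -s = -(2 * π * s) by ring, Real.cos_neg]
  rw [h1, Wr_expand, Finset.sum_mul, Complex.re_sum]
  refine Finset.sum_congr rfl fun x _ => ?_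
  rw [prod_Ar σ T x, mul_assoc, mul_assoc, Complex.re_ofReal_mul, ← ee_add, ← ee_add, re_ee]
  congr 3
  rw [lin]
  ring

/-! ### The average -/

lemma Av_congr {h : ℝ} {f g : ℝ → ℝ} (hfg : ∀ y, f y = g y) (t : ℝ) : Av h f t = Av h g t := by
  have : f = g := funext hfg
  rw [this]

lemma Av_sum {ι : Type*} (s : Finset ι) (c : ι → ℝ) (f : ι → ℝ → ℝ) (hf : ∀ i, Continuous (f i))
    (h t : ℝ) : Av h (fun y => ∑ i ∈ s, c i * f i y) t = ∑ i ∈ s, c i * Av h (f i) t := by
  unfold Av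
  have h1 : ∀ u : ℝ, ((∑ i ∈ s, c i * f i (t + u)) + ∑ i ∈ s, c i * f i (t - u)) * ((1 - u / h) / h)
      = ∑ i ∈ s, c i * ((f i (t + u) + f i (t - u)) * ((1 - u / h) / h)) := by
    intro u
    rw [← Finset.sum_add_distrib, Finset.sum_mul]
    refine Finset.sum_congr rfl fun i _ => ?_
    ring
  simp_rw [h1]
  rw [intervalIntegral.integral_finsetSum]
  · refine Finset.sum_congr rfl fun i _ => ?_
    rw [intervalIntegral.integral_const_mul]
  · intro i _
    apply Continuous.intervalIntegrable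
    have := hf i
    fun_prop

lemma Av_one {h : ℝ} (hh : 0 < h) (c t : ℝ) : Av h (fun _ => c) t = c := by
  have h1 := tent_integral_zero hh
  have h2 : Av h (fun _ => c) t = ∫ u in (0 : ℝ)..h, c * (2 * ((1 - u / h) / h)) := by
    unfold Av
    refine intervalIntegral.integral_congr fun u _ => ?_
    simp only
    ring
  rw [h2, intervalIntegral.integral_const_mul, h1, mul_one]

lemma Av_cos' {h : ℝ} (hh : 0 < h) (a b t : ℝ) : |Av h (fun y => Real.cos (a * y + b)) t| ≤ 1 ∧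
    ∀ Q : ℝ, 0 < Q → π / Q ≤ |a| → |Av h (fun y => Real.cos (a * y + b)) t| ≤ (Q / h) ^ 2 := by
  have hπ := Real.pi_pos
  have hsinc : ∀ z : ℝ, |(Real.sin z / z) ^ 2| ≤ 1 := by
    intro z
    rw [abs_of_nonneg (sq_nonneg _), sq_le_one_iff_abs_le_one, abs_div]
    exact div_le_one_of_le₀ Real.abs_sin_le_abs (abs_nonneg _)
  rcases eq_or_ne a 0 with rfl | ha
  · constructor
    · have : Av h (fun y => Real.cos (0 * y + b)) t = Real.cos b := by
        rw [← Av_one hh (Real.cos b) t]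
        exact Av_congr (fun y => by rw [zero_mul, zero_add]) t
      rw [this]
      exact Real.abs_cos_le_one _
    · intro Q hQ h1
      rw [abs_zero] at h1
      have : 0 < π / Q := by positivity
      linarith
  · have h0 : Av h (fun y => Real.cos (a * y + b)) t
        = Real.cos (a * t + b) * (Real.sin (a * h / 2) / (a * h / 2)) ^ 2 := Av_cos hh ha b t
    rw [h0, abs_mul]
    constructor
    · exact mul_le_one₀ (Real.abs_cos_le_one _) (abs_nonneg _) (hsinc _)
    · intro Q hQ h1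
      have h2 : |(Real.sin (a * h / 2) / (a * h / 2)) ^ 2| ≤ (Q / h) ^ 2 := by
        rw [abs_pow, abs_div]
        apply pow_le_pow_left₀ (by positivity)
        have h3 : π / Q * h / 2 ≤ |a * h / 2| := by
          rw [abs_div, abs_mul, abs_of_pos hh, abs_of_pos (by norm_num : (0 : ℝ) < 2)]
          gcongr
        have h4 : 0 < π / Q * h / 2 := by positivity
        calc |Real.sin (a * h / 2)| / |a * h / 2| ≤ 1 / (π / Q * h / 2) := by
              apply div_le_div₀ (by norm_num) (Real.abs_sin_le_one _) h4 h3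
          _ = 2 / π * (Q / h) := by field_simp
          _ ≤ 1 * (Q / h) := by
              apply mul_le_mul_of_nonneg_right _ (by positivity)
              rw [div_le_one hπ]
              linarith [Real.pi_gt_three]
          _ = Q / h := one_mul _
      calc |Real.cos (a * t + b)| * |(Real.sin (a * h / 2) / (a * h / 2)) ^ 2|
          ≤ 1 * (Q / h) ^ 2 := mul_le_mul (Real.abs_cos_le_one _) h2 (abs_nonneg _) zero_le_one
        _ = _ := one_mul _

lemma sum_idx (T : Finset ℕ) (c : ℝ) : ∑ x ∈ idx T, c ^ nz T x = (1 + 2 * c) ^ T.card := by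
  classical
  have h1 : ∀ x : T → ℤ, c ^ nz T x = ∏ q : T, (if x q ≠ 0 then c else 1) := by
    intro x
    rw [Finset.prod_ite, Finset.prod_const, Finset.prod_const_one, mul_one, nz]
  simp_rw [h1]
  have h2 : ∏ _q : T, ∑ j ∈ ({-1, 0, 1} : Finset ℤ), (if j ≠ 0 then c else 1) = (1 + 2 * c) ^ T.card := by
    rw [Finset.prod_const, Finset.card_univ, Fintype.card_coe]
    congr 1
    rw [Finset.sum_insert (by decide), Finset.sum_insert (by decide), Finset.sum_singleton]
    norm_num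
    ring
  rw [← h2, Finset.prod_univ_sum]
  rfl

lemma zero_mem_idx (T : Finset ℕ) : (0 : T → ℤ) ∈ idx T := mem_idx.mpr fun _ => Or.inr (Or.inl rfl)

lemma single_mem_idx {T : Finset ℕ} {K : ℕ} (h : K ∈ T) : (Pi.single ⟨K, h⟩ 1 : T → ℤ) ∈ idx T := by
  classical
  refine mem_idx.mpr fun q => ?_
  by_cases hq : q = ⟨K, h⟩
  · subst hq; right; right; simp
  · right; left; simp [Pi.single_eq_of_ne hq]

lemma lin_single {T : Finset ℕ} {K : ℕ} (h : K ∈ T) : lin T (Pi.single ⟨K, h⟩ 1) = √K := by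
  classical
  rw [lin, Finset.sum_eq_single (⟨K, h⟩ : T)]
  · simp
  · intro q _ hq
    rw [Pi.single_eq_of_ne hq]
    simp
  · intro h'
    exact absurd (Finset.mem_univ _) h'

lemma sum_single {T : Finset ℕ} {K : ℕ} (h : K ∈ T) :
    ∑ q : T, (((Pi.single ⟨K, h⟩ 1 : T → ℤ) q : ℤ) : ℝ) = 1 := by
  classical
  rw [Finset.sum_eq_single (⟨K, h⟩ : T)]
  · simp
  · intro q _ hq
    rw [Pi.single_eq_of_ne hq]
    simp
  · intro h'
    exact absurd (Finset.mem_univ _) h'

lemma nz_single {T : Finset ℕ} {K : ℕ} (h : K ∈ T) : nz T (Pi.single ⟨K, h⟩ 1) = 1 := by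
  classical
  rw [nz, Finset.card_eq_one]
  refine ⟨⟨K, h⟩, ?_⟩
  ext q
  simp only [Finset.mem_filter, Finset.mem_univ, true_and, Finset.mem_singleton]
  constructor
  · intro hq
    by_contra hne
    exact hq (Pi.single_eq_of_ne hne _)
  · rintro rfl
    simp

lemma sum_idx_le (T : Finset ℕ) : ∑ x ∈ idx T, (1 / 8 : ℝ) ^ nz T x ≤ 2 ^ T.card := by
  rw [sum_idx]
  exact pow_le_pow_left₀ (by norm_num) (by norm_num) _

/-- the mean of the Riesz product -/
lemma Av_Wr {T : Finset ℕ} {Q H : ℝ} (hQ : 0 < Q) (hH : 0 < H) (hSep : Sep Q T) (t : ℝ) :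
    Av H (Wr (1 / 4) T) t ≤ 1 + 2 ^ T.card * (Q / H) ^ 2 := by
  classical
  have hπ := Real.pi_pos
  have h1 : ∀ y, Wr (1 / 4) T y = ∑ x ∈ idx T, (1 / 8 : ℝ) ^ nz T x *
      Real.cos (2 * π * lin T x * y + -(2 * π * (3 / 8 * ∑ q : T, (x q : ℝ)))) := by
    intro y
    have h2 := Wr_mul_re (1 / 4) T y 0
    rw [mul_zero, Real.cos_zero, mul_one] at h2
    rw [h2]
    refine Finset.sum_congr rfl fun x _ => ?_
    congr 2
    · norm_num
    · ring
  rw [Av_congr h1, Av_sum _ _ _ (fun x => by fun_prop)]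
  have h3 : ∀ x ∈ idx T, (1 / 8 : ℝ) ^ nz T x *
      Av H (fun y => Real.cos (2 * π * lin T x * y + -(2 * π * (3 / 8 * ∑ q : T, (x q : ℝ))))) t
      ≤ (if x = 0 then 1 else 0) + (1 / 8 : ℝ) ^ nz T x * (Q / H) ^ 2 := by
    intro x hx
    have h8 : (0 : ℝ) ≤ (1 / 8 : ℝ) ^ nz T x := by positivity
    have h81 : (1 / 8 : ℝ) ^ nz T x ≤ 1 := pow_le_one₀ (by norm_num) (by norm_num)
    obtain ⟨a1, a2⟩ := Av_cos' hH (2 * π * lin T x) (-(2 * π * (3 / 8 * ∑ q : T, (x q : ℝ)))) t
    split_ifs with h0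
    · have h4 := (abs_le.mp a1).2
      have h5 : 0 ≤ (1 / 8 : ℝ) ^ nz T x * (Q / H) ^ 2 := by positivity
      nlinarith
    · have h6 := hSep x hx h0
      have h7 : π / Q ≤ |2 * π * lin T x| := by
        rw [abs_mul, abs_of_pos (by positivity : (0 : ℝ) < 2 * π)]
        calc π / Q = π * (1 / Q) := by ring
          _ ≤ π * |lin T x| := by gcongr
          _ ≤ 2 * π * |lin T x| := by
              have : 0 ≤ π * |lin T x| := by positivity
              linarith
      have h9 := (abs_le.mp (a2 Q hQ h7)).2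
      have := mul_le_mul_of_nonneg_left h9 h8
      linarith
  refine (Finset.sum_le_sum h3).trans ?_
  rw [Finset.sum_add_distrib, ← Finset.sum_mul]
  refine add_le_add ?_ (mul_le_mul_of_nonneg_right (sum_idx_le T) (by positivity))
  rw [Finset.sum_ite_eq' (idx T) 0 (fun _ => (1 : ℝ)), if_pos (zero_mem_idx T)]

/-- the mean of the Riesz product against one frequency -/
lemma Av_Wr_cos {T : Finset ℕ} {Q H : ℝ} (hQ : 0 < Q) (hH : 0 < H) {K s₀ : ℕ}
    (h1 : ∀ x ∈ idx T, (∀ h : K ∈ T, x ≠ Pi.single ⟨K, h⟩ 1) → |lin T x - √K| < 1 / (2 * Q) →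
      s₀ ≤ nz T x)
    (h2 : ∑ x ∈ (idx T).filter (fun x => |lin T x - √K| < 1 / (2 * Q)), (1 / 2 : ℝ) ^ nz T x ≤ 1)
    (t : ℝ) :
    (if K ∈ T then (1 / 8 : ℝ) else 0) - ((1 / 4) ^ s₀ + 2 ^ T.card * (Q / H) ^ 2) ≤
      Av H (fun y => Wr (1 / 4) T y * Real.cos (2 * π * (y * √K) - 3 * π / 4)) t := by
  classical
  have hπ := Real.pi_pos
  have e1 : ∀ y, Wr (1 / 4) T y * Real.cos (2 * π * (y * √K) - 3 * π / 4) =
      ∑ x ∈ idx T, (1 / 8 : ℝ) ^ nz T x * Real.cos (2 * π * (lin T x - √K) * y +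
        2 * π * (3 / 8 * (1 - ∑ q : T, (x q : ℝ)))) := by
    intro y
    have h3 := Wr_mul_re (1 / 4) T y (y * √K - 3 / 8)
    rw [show 2 * π * (y * √K - 3 / 8) = 2 * π * (y * √K) - 3 * π / 4 by ring] at h3
    rw [h3]
    refine Finset.sum_congr rfl fun x _ => ?_
    congr 2
    · norm_num
    · ring
  rw [Av_congr e1, Av_sum _ _ _ (fun x => by fun_prop)]
  have h3 : ∀ x ∈ idx T, (if ∃ h : K ∈ T, x = Pi.single ⟨K, h⟩ 1 then (1 / 8 : ℝ) else 0)
      - (1 / 8 : ℝ) ^ nz T x * (Q / H) ^ 2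
      - (if |lin T x - √K| < 1 / (2 * Q) then (1 / 4 : ℝ) ^ s₀ * (1 / 2 : ℝ) ^ nz T x else 0)
      ≤ (1 / 8 : ℝ) ^ nz T x *
      Av H (fun y => Real.cos (2 * π * (lin T x - √K) * y +
        2 * π * (3 / 8 * (1 - ∑ q : T, (x q : ℝ))))) t := by
    intro x hx
    have h8 : (0 : ℝ) ≤ (1 / 8 : ℝ) ^ nz T x := by positivity
    have hp : 0 ≤ (1 / 8 : ℝ) ^ nz T x * (Q / H) ^ 2 := by positivity
    obtain ⟨a1, a2⟩ := Av_cos' hH (2 * π * (lin T x - √K))
      (2 * π * (3 / 8 * (1 - ∑ q : T, (x q : ℝ)))) t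
    by_cases hsing : ∃ h : K ∈ T, x = Pi.single ⟨K, h⟩ 1
    · rw [if_pos hsing]
      obtain ⟨hK, rfl⟩ := hsing
      rw [lin_single, sub_self, nz_single, sum_single]
      have : Av H (fun y => Real.cos (2 * π * 0 * y + 2 * π * (3 / 8 * (1 - 1)))) t = 1 := by
        rw [← Av_one hH 1 t]
        refine Av_congr (fun y => ?_) t
        rw [Av_one hH 1 t]
        norm_num
      rw [this]
      have h5 : (0 : ℝ) ≤ if |(0 : ℝ)| < 1 / (2 * Q) then (1 / 4 : ℝ) ^ s₀ * (1 / 2 : ℝ) ^ 1 else 0 := by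
        split_ifs <;> positivity
      have h6 : 0 ≤ (1 / 8 : ℝ) ^ 1 * (Q / H) ^ 2 := by positivity
      linarith
    · rw [if_neg hsing]
      by_cases hnear : |lin T x - √K| < 1 / (2 * Q)
      · rw [if_pos hnear]
        have h4 := h1 x hx (fun h h' => hsing ⟨h, h'⟩) hnear
        have h5 := (abs_le.mp a1).1
        have h6 : (1 / 8 : ℝ) ^ nz T x ≤ (1 / 4 : ℝ) ^ s₀ * (1 / 2 : ℝ) ^ nz T x := by
          have : (1 / 8 : ℝ) ^ nz T x = (1 / 4 : ℝ) ^ nz T x * (1 / 2 : ℝ) ^ nz T x := by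
            rw [← mul_pow]; norm_num
          rw [this]
          apply mul_le_mul_of_nonneg_right _ (by positivity)
          exact pow_le_pow_of_le_one (by norm_num) (by norm_num) h4
        nlinarith
      · rw [if_neg hnear]
        rw [not_lt] at hnear
        have h7 : π / Q ≤ |2 * π * (lin T x - √K)| := by
          rw [abs_mul, abs_of_pos (by positivity : (0 : ℝ) < 2 * π)]
          calc π / Q = 2 * π * (1 / (2 * Q)) := by field_simp
            _ ≤ 2 * π * |lin T x - √K| := by gcongr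
        have h9 := (abs_le.mp (a2 Q hQ h7)).1
        have := mul_le_mul_of_nonneg_left h9 h8
        linarith
  refine le_trans ?_ (Finset.sum_le_sum h3)
  rw [Finset.sum_sub_distrib, Finset.sum_sub_distrib, ← Finset.sum_mul, ← Finset.sum_filter,
    ← Finset.sum_filter, ← Finset.mul_sum]
  have f1 : (if K ∈ T then (1 / 8 : ℝ) else 0) ≤
      ∑ x ∈ (idx T).filter (fun x => ∃ h : K ∈ T, x = Pi.single ⟨K, h⟩ 1), (1 / 8 : ℝ) := by
    split_ifs with hK
    · have : (Pi.single ⟨K, hK⟩ 1 : T → ℤ) ∈ (idx T).filter (fun x => ∃ h : K ∈ T, x = Pi.single ⟨K, h⟩ 1) :=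
        Finset.mem_filter.mpr ⟨single_mem_idx hK, hK, rfl⟩
      exact Finset.single_le_sum (f := fun _ : T → ℤ => (1 / 8 : ℝ)) (fun _ _ => by norm_num) this
    · exact Finset.sum_nonneg fun _ _ => by norm_num
  have f2 := mul_le_mul_of_nonneg_right (sum_idx_le T) (show (0 : ℝ) ≤ (Q / H) ^ 2 by positivity)
  have f3 := mul_le_mul_of_nonneg_left h2 (show (0 : ℝ) ≤ (1 / 4) ^ s₀ by positivity)
  linarith

end

end Pool.Agent.Helper60.GP
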