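import Mathlib
import Pool.Agent.Helper60.GP.Plus

/-!
# The one-sided inequality from the Riesz product
-/

open Filter MeasureTheory Set
open scoped Real Topology

namespace Pool.Agent.Helper60.GP

open Pool.Agent.Helper22.GC Pool.Agent.Helper53.OM Pool.Agent.Helper22.RZ

noncomputable section

lemma norm_Gs_term_le {b : ℕ → ℝ} (hb : ∀ K, 0 ≤ b K) (K : ℕ) (x : ℝ) :
    ‖b K * (1 / π * Real.cos x)‖ ≤ b K := by
  rw [norm_mul, Real.norm_of_nonneg (hb K), norm_mul, Real.norm_of_nonneg (by positivity)]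
  refine mul_le_of_le_one_right (hb K) ?_
  have h1 : 1 / π ≤ 1 := by
    rw [div_le_one Real.pi_pos]; linarith [Real.pi_gt_three]
  have h2 : ‖Real.cos x‖ ≤ 1 := Real.abs_cos_le_one _
  calc 1 / π * ‖Real.cos x‖ ≤ 1 * 1 := mul_le_mul h1 h2 (norm_nonneg _) zero_le_one
    _ = 1 := one_mul 1

lemma hasSum_Gs {b : ℕ → ℝ} (hb : ∀ K, 0 ≤ b K) (hs : Summable b) (R : ℝ) :
    HasSum (fun K : ℕ => b K * (1 / π * Real.cos (2 * π * (R * √K) - 3 * π / 4))) (Gs b R) :=
  (Summable.of_norm_bounded hs fun K => norm_Gs_term_le hb K _).hasSum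

lemma continuous_Gs {b : ℕ → ℝ} (hb : ∀ K, 0 ≤ b K) (hs : Summable b) : Continuous (Gs b) := by
  refine continuous_tsum (u := b) (fun K => ?_) hs fun K x => norm_Gs_term_le hb K _
  fun_prop

lemma continuous_Wr (σ : ℝ) (T : Finset ℕ) : Continuous (Wr σ T) := by
  unfold Wr
  fun_prop

lemma Av_mul_Gs {b : ℕ → ℝ} (hb : ∀ K, 0 ≤ b K) (hs : Summable b) {w : ℝ → ℝ} (hw : Continuous w)
    {B : ℝ} (hB : ∀ y, |w y| ≤ B) {h : ℝ} (hh : 0 < h) (t : ℝ) :
    HasSum (fun K : ℕ => b K * (1 / π) *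
      Av h (fun y => w y * Real.cos (2 * π * (y * √K) - 3 * π / 4)) t)
      (Av h (fun y => w y * Gs b y) t) := by
  have hB0 : 0 ≤ B := (abs_nonneg _).trans (hB 0)
  have hwt : ∀ u ∈ uIoc (0 : ℝ) h, |(1 - u / h) / h| ≤ 1 / h := by
    intro u hu
    rw [uIoc_of_le hh.le] at hu
    rw [abs_of_nonneg (div_nonneg (by rw [sub_nonneg, div_le_one hh]; exact hu.2) hh.le)]
    apply div_le_div_of_nonneg_right _ hh.le
    have : 0 ≤ u / h := div_nonneg hu.1.le hh.le
    linarith
  have h1 : HasSum (fun K : ℕ => ∫ u in (0 : ℝ)..h,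
      (w (t + u) * (b K * (1 / π * Real.cos (2 * π * ((t + u) * √K) - 3 * π / 4))) +
        w (t - u) * (b K * (1 / π * Real.cos (2 * π * ((t - u) * √K) - 3 * π / 4)))) * ((1 - u / h) / h))
      (Av h (fun y => w y * Gs b y) t) := by
    unfold Av
    refine intervalIntegral.hasSum_integral_of_dominated_convergence
      (bound := fun K _ => 2 * B * b K * (1 / h)) ?_ ?_ ?_ ?_ ?_
    · intro K
      apply Continuous.aestronglyMeasurable
      fun_prop
    · intro K
      refine Eventually.of_forall fun u hu => ?_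
      rw [norm_mul]
      have hbK := hb K
      refine mul_le_mul ?_ (hwt u hu) (norm_nonneg _) (by positivity)
      refine (norm_add_le _ _).trans ?_
      have h1 : ‖w (t + u) * (b K * (1 / π * Real.cos (2 * π * ((t + u) * √K) - 3 * π / 4)))‖ ≤ B * b K := by
        rw [norm_mul]
        exact mul_le_mul (hB _) (norm_Gs_term_le hb K _) (norm_nonneg _) hB0
      have h2 : ‖w (t - u) * (b K * (1 / π * Real.cos (2 * π * ((t - u) * √K) - 3 * π / 4)))‖ ≤ B * b K := by
        rw [norm_mul]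
        exact mul_le_mul (hB _) (norm_Gs_term_le hb K _) (norm_nonneg _) hB0
      linarith
    · refine Eventually.of_forall fun u _ => ?_
      exact (hs.mul_left (2 * B)).mul_right _
    · exact intervalIntegrable_const
    · refine Eventually.of_forall fun u _ => ?_
      exact (((hasSum_Gs hb hs (t + u)).mul_left (w (t + u))).add
        ((hasSum_Gs hb hs (t - u)).mul_left (w (t - u)))).mul_right _
  have e : (fun K : ℕ => b K * (1 / π) *
      Av h (fun y => w y * Real.cos (2 * π * (y * √K) - 3 * π / 4)) t) = fun K : ℕ => ∫ u in (0 : ℝ)..h,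
      (w (t + u) * (b K * (1 / π * Real.cos (2 * π * ((t + u) * √K) - 3 * π / 4))) +
        w (t - u) * (b K * (1 / π * Real.cos (2 * π * ((t - u) * √K) - 3 * π / 4)))) * ((1 - u / h) / h) := by
    funext K
    unfold Av
    rw [← intervalIntegral.integral_const_mul]
    refine intervalIntegral.integral_congr fun u _ => ?_
    simp only
    ring
  rw [e]
  exact h1

/-- the inequality, from the two facts on near relations -/
theorem plus_core_of {b : ℕ → ℝ} (hb : ∀ K, 0 ≤ b K) (hb0 : b 0 = 0) (hs : Summable b) {S : ℝ}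
    (hbS : ∑' K, b K ≤ S) {T : Finset ℕ} {Q H : ℝ} (hQ : 0 < Q) (hH : 0 < H) (hSep : Sep Q T)
    {s₀ : ℕ}
    (h1 : ∀ K : ℕ, 1 ≤ K → ∀ x ∈ idx T, (∀ h : K ∈ T, x ≠ Pi.single ⟨K, h⟩ 1) →
      |lin T x - √K| < 1 / (2 * Q) → s₀ ≤ nz T x)
    (h2 : ∀ K : ℕ, ∑ x ∈ (idx T).filter (fun x => |lin T x - √K| < 1 / (2 * Q)),
      (1 / 2 : ℝ) ^ nz T x ≤ 1)
    {β : ℝ} (hβ : 0 ≤ β) (hG : ∀ y, H ≤ y → y ≤ 3 * H → Gs b y ≤ β) :
    1 / (8 * π) * ∑ K ∈ T, b K - S * ((1 / 4) ^ s₀ + 2 ^ T.card * (Q / H) ^ 2)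
      ≤ β * (1 + 2 ^ T.card * (Q / H) ^ 2) := by
  classical
  have hπ := Real.pi_pos
  set E : ℝ := (1 / 4) ^ s₀ + 2 ^ T.card * (Q / H) ^ 2 with hE
  have hE0 : 0 ≤ E := by positivity
  have hσ : |(1 / 4 : ℝ)| ≤ 1 := by rw [abs_of_pos (by norm_num)]; norm_num
  have hW0 : ∀ y, 0 ≤ Wr (1 / 4) T y := Wr_nonneg hσ T
  have hWB : ∀ y, |Wr (1 / 4) T y| ≤ 2 ^ T.card := fun y => by
    rw [abs_of_nonneg (hW0 y)]; exact Wr_le hσ T y
  have hWc := continuous_Wr (1 / 4) T
  have hGc := continuous_Gs hb hs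
  -- positivity
  have k1 : 0 ≤ Av H (fun y => Wr (1 / 4) T y * (β - Gs b y)) (2 * H) := by
    refine le_Av hH (by fun_prop) fun y hy1 hy2 => ?_
    exact mul_nonneg (hW0 y) (sub_nonneg.mpr (hG y (by linarith) (by linarith)))
  have k2 : Av H (fun y => Wr (1 / 4) T y * (β - Gs b y)) (2 * H)
      = β * Av H (Wr (1 / 4) T) (2 * H) - Av H (fun y => Wr (1 / 4) T y * Gs b y) (2 * H) := by
    unfold Av
    rw [← intervalIntegral.integral_const_mul, ← intervalIntegral.integral_sub]
    · refine intervalIntegral.integral_congr fun u _ => ?_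
      simp only
      ring
    · apply Continuous.intervalIntegrable
      fun_prop
    · apply Continuous.intervalIntegrable
      fun_prop
  have k3 := Av_Wr hQ hH hSep (2 * H)
  have k4 := Av_mul_Gs hb hs hWc hWB hH (2 * H)
  -- lower bound for the series
  have k5 : ∀ K : ℕ, (1 / (8 * π)) * (if K ∈ T then b K else 0) - E * b K ≤ b K * (1 / π) *
      Av H (fun y => Wr (1 / 4) T y * Real.cos (2 * π * (y * √K) - 3 * π / 4)) (2 * H) := by
    intro K
    rcases Nat.eq_zero_or_pos K with rfl | hK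
    · rw [hb0]; simp
    · have h3 := Av_Wr_cos hQ hH (T := T) (h1 K hK) (h2 K) (2 * H)
      have hbK := hb K
      have h4 : 0 ≤ b K * (1 / π) := by positivity
      have h5 := mul_le_mul_of_nonneg_left h3 h4
      refine le_trans ?_ h5
      rw [← hE]
      have h6 : b K * (1 / π) * E ≤ E * b K := by
        have : 1 / π ≤ 1 := by rw [div_le_one hπ]; linarith [Real.pi_gt_three]
        have h7 : 0 ≤ b K * E := mul_nonneg hbK hE0
        calc b K * (1 / π) * E = (b K * E) * (1 / π) := by ring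
          _ ≤ (b K * E) * 1 := mul_le_mul_of_nonneg_left this h7
          _ = E * b K := by ring
      have h7 : (1 / (8 * π)) * (if K ∈ T then b K else 0) = b K * (1 / π) * (if K ∈ T then (1 / 8 : ℝ) else 0) := by
        split_ifs
        · field_simp
        · ring
      rw [h7, mul_sub]
      linarith
  have hsI : Summable (fun K : ℕ => if K ∈ T then b K else 0) :=
    summable_of_ne_finset_zero (s := T) fun K hK => if_neg hK
  have k6 := ((hsI.mul_left (1 / (8 * π))).sub (hs.mul_left E)).tsum_le_tsum k5 k4.summable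
  rw [(hsI.mul_left (1 / (8 * π))).tsum_sub (hs.mul_left E), tsum_mul_left, tsum_mul_left,
    tsum_eq_sum (s := T) (fun K hK => if_neg hK), k4.tsum_eq] at k6
  have k7 : ∑ K ∈ T, (if K ∈ T then b K else 0) = ∑ K ∈ T, b K :=
    Finset.sum_congr rfl fun K hK => if_pos hK
  rw [k7] at k6
  have k8 : E * ∑' K, b K ≤ S * E := by
    rw [mul_comm]; exact mul_le_mul_of_nonneg_right hbS hE0
  have k9 := mul_le_mul_of_nonneg_left k3 hβ
  rw [k2] at k1
  linarith

end

end Pool.Agent.Helper60.GP
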