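import Mathlib
import Pool.Agent.Helper60.GP.Plus2
import Pool.Agent.Helper14.GP.NearShort
import Pool.Agent.Helper69.GP.Near

/-!
# Large positive values from a set without relations
-/

open Filter MeasureTheory Set
open scoped Real Topology

namespace Pool.Agent.Helper60.GP

open Pool.Agent.Helper22.GC Pool.Agent.Helper53.OM Pool.Agent.Helper22.RZ

noncomputable section

theorem plus_core {b : ℕ → ℝ} (hb : ∀ K, 0 ≤ b K) (hb0 : b 0 = 0) (hs : Summable b) {S : ℝ}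
    (hbS : ∑' K, b K ≤ S) {T : Finset ℕ} (hT : ∀ q ∈ T, Squarefree q) {N : ℕ}
    (hTN : T ⊆ Finset.Icc 1 N) {Q H : ℝ} (hQ : 1 ≤ Q) (hH : 0 < H) (hSep : Sep Q T)
    {s₀ : ℕ} (hs₀ : (2 * T.card * √N + 1) ^ (2 ^ s₀) ≤ 2 * Q)
    {β : ℝ} (hβ : 0 ≤ β) (hG : ∀ y, H ≤ y → y ≤ 3 * H → Gs b y ≤ β) :
    1 / (8 * π) * ∑ K ∈ T, b K - S * ((1 / 4) ^ s₀ + 2 ^ T.card * (Q / H) ^ 2)
      ≤ β * (1 + 2 ^ T.card * (Q / H) ^ 2) := by
  have hQ0 : 0 < Q := by linarith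
  refine plus_core_of hb hb0 hs hbS hQ0 hH hSep (s₀ := s₀) ?_ ?_ hβ hG
  · intro K hK x hx hne hnear
    by_contra hlt
    rw [not_le] at hlt
    have := near_short hT hTN hx hK hne hQ hlt hs₀
    linarith
  · intro K
    exact near_sum hQ0 hSep _

end

end Pool.Agent.Helper60.GP
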