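import Mathlib
import Pool.Agent.Helper60.GP.Plus3

/-!
# The Riesz product on an arbitrary window, with either sign
-/

open Filter MeasureTheory Set
open scoped Real Topology

namespace Pool.Agent.Helper60.GP

open Pool.Agent.Helper22.GC Pool.Agent.Helper53.OM Pool.Agent.Helper22.RZ

noncomputable section

lemma abs_coef {s : ℝ} (hs : s = 1 ∨ s = -1) (n : ℕ) : |(s * (1 / 4) / 2) ^ n| = (1 / 8 : ℝ) ^ n := by
  rw [abs_pow]
  congr 1
  rcases hs with rfl | rfl
  · rw [abs_of_pos (by norm_num)]; norm_num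
  · rw [abs_of_neg (by norm_num)]; norm_num

/-- the mean of the Riesz product -/
lemma Av_Wr_s {s : ℝ} (hs : s = 1 ∨ s = -1) {T : Finset ℕ} {Q H : ℝ} (hQ : 0 < Q) (hH : 0 < H)
    (hSep : Sep Q T) (t : ℝ) :
    Av H (Wr (s * (1 / 4)) T) t ≤ 1 + 2 ^ T.card * (Q / H) ^ 2 := by
  classical
  have hπ := Real.pi_pos
  have h1 : ∀ y, Wr (s * (1 / 4)) T y = ∑ x ∈ idx T, (s * (1 / 4) / 2) ^ nz T x *
      Real.cos (2 * π * lin T x * y + -(2 * π * (3 / 8 * ∑ q : T, (x q : ℝ)))) := by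
    intro y
    have h2 := Wr_mul_re (s * (1 / 4)) T y 0
    rw [mul_zero, Real.cos_zero, mul_one] at h2
    rw [h2]
    refine Finset.sum_congr rfl fun x _ => ?_
    congr 2
    ring
  rw [Av_congr h1, Av_sum _ _ _ (fun x => by fun_prop)]
  have h3 : ∀ x ∈ idx T, (s * (1 / 4) / 2) ^ nz T x *
      Av H (fun y => Real.cos (2 * π * lin T x * y + -(2 * π * (3 / 8 * ∑ q : T, (x q : ℝ))))) t
      ≤ (if x = 0 then 1 else 0) + (1 / 8 : ℝ) ^ nz T x * (Q / H) ^ 2 := by
    intro x hx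
    have h8 : (0 : ℝ) ≤ (1 / 8 : ℝ) ^ nz T x := by positivity
    have h81 : (1 / 8 : ℝ) ^ nz T x ≤ 1 := pow_le_one₀ (by norm_num) (by norm_num)
    obtain ⟨a1, a2⟩ := Av_cos' hH (2 * π * lin T x) (-(2 * π * (3 / 8 * ∑ q : T, (x q : ℝ)))) t
    refine (le_abs_self _).trans ?_
    rw [abs_mul, abs_coef hs]
    split_ifs with h0
    · have h5 : 0 ≤ (1 / 8 : ℝ) ^ nz T x * (Q / H) ^ 2 := by positivity
      have h6 := mul_le_one₀ h81 (abs_nonneg _) a1
      linarith
    · have h6 := hSep x hx h0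
      have h7 : π / Q ≤ |2 * π * lin T x| := by
        rw [abs_mul, abs_of_pos (by positivity : (0 : ℝ) < 2 * π)]
        calc π / Q = π * (1 / Q) := by ring
          _ ≤ π * |lin T x| := by gcongr
          _ ≤ 2 * π * |lin T x| := by
              have : 0 ≤ π * |lin T x| := by positivity
              linarith
      have h9 := a2 Q hQ h7
      have := mul_le_mul_of_nonneg_left h9 h8
      linarith
  refine (Finset.sum_le_sum h3).trans ?_
  rw [Finset.sum_add_distrib, ← Finset.sum_mul]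
  refine add_le_add ?_ (mul_le_mul_of_nonneg_right (sum_idx_le T) (by positivity))
  rw [Finset.sum_ite_eq' (idx T) 0 (fun _ => (1 : ℝ)), if_pos (zero_mem_idx T)]

/-- the mean of the Riesz product against one frequency -/
lemma Av_Wr_cos_s {s : ℝ} (hs : s = 1 ∨ s = -1) {T : Finset ℕ} {Q H : ℝ} (hQ : 0 < Q) (hH : 0 < H)
    {K s₀ : ℕ}
    (h1 : ∀ x ∈ idx T, (∀ h : K ∈ T, x ≠ Pi.single ⟨K, h⟩ 1) → |lin T x - √K| < 1 / (2 * Q) →
      s₀ ≤ nz T x)
    (h2 : ∑ x ∈ (idx T).filter (fun x => |lin T x - √K| < 1 / (2 * Q)), (1 / 2 : ℝ) ^ nz T x ≤ 1)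
    (t : ℝ) :
    (if K ∈ T then (1 / 8 : ℝ) else 0) - ((1 / 4) ^ s₀ + 2 ^ T.card * (Q / H) ^ 2) ≤
      s * Av H (fun y => Wr (s * (1 / 4)) T y * Real.cos (2 * π * (y * √K) - 3 * π / 4)) t := by
  classical
  have hπ := Real.pi_pos
  have hss : s * s = 1 := by rcases hs with rfl | rfl <;> norm_num
  have hsa : |s| = 1 := by rcases hs with rfl | rfl <;> simp
  have e1 : ∀ y, Wr (s * (1 / 4)) T y * Real.cos (2 * π * (y * √K) - 3 * π / 4) =
      ∑ x ∈ idx T, (s * (1 / 4) / 2) ^ nz T x * Real.cos (2 * π * (lin T x - √K) * y +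
        2 * π * (3 / 8 * (1 - ∑ q : T, (x q : ℝ)))) := by
    intro y
    have h3 := Wr_mul_re (s * (1 / 4)) T y (y * √K - 3 / 8)
    rw [show 2 * π * (y * √K - 3 / 8) = 2 * π * (y * √K) - 3 * π / 4 by ring] at h3
    rw [h3]
    refine Finset.sum_congr rfl fun x _ => ?_
    congr 2
    ring
  rw [Av_congr e1, Av_sum _ _ _ (fun x => by fun_prop), Finset.mul_sum]
  have h3 : ∀ x ∈ idx T, (if ∃ h : K ∈ T, x = Pi.single ⟨K, h⟩ 1 then (1 / 8 : ℝ) else 0)
      - (1 / 8 : ℝ) ^ nz T x * (Q / H) ^ 2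
      - (if |lin T x - √K| < 1 / (2 * Q) then (1 / 4 : ℝ) ^ s₀ * (1 / 2 : ℝ) ^ nz T x else 0)
      ≤ s * ((s * (1 / 4) / 2) ^ nz T x *
      Av H (fun y => Real.cos (2 * π * (lin T x - √K) * y +
        2 * π * (3 / 8 * (1 - ∑ q : T, (x q : ℝ))))) t) := by
    intro x hx
    have h8 : (0 : ℝ) ≤ (1 / 8 : ℝ) ^ nz T x := by positivity
    have hp : 0 ≤ (1 / 8 : ℝ) ^ nz T x * (Q / H) ^ 2 := by positivity
    obtain ⟨a1, a2⟩ := Av_cos' hH (2 * π * (lin T x - √K))
      (2 * π * (3 / 8 * (1 - ∑ q : T, (x q : ℝ)))) t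
    by_cases hsing : ∃ h : K ∈ T, x = Pi.single ⟨K, h⟩ 1
    · rw [if_pos hsing]
      obtain ⟨hK, rfl⟩ := hsing
      rw [lin_single, sub_self, nz_single, sum_single]
      have : Av H (fun y => Real.cos (2 * π * 0 * y + 2 * π * (3 / 8 * (1 - 1)))) t = 1 := by
        rw [← Av_one hH 1 t]
        refine Av_congr (fun y => ?_) t
        rw [Av_one hH 1 t]
        norm_num
      rw [this]
      have h5 : (0 : ℝ) ≤ if |(0 : ℝ)| < 1 / (2 * Q) then (1 / 4 : ℝ) ^ s₀ * (1 / 2 : ℝ) ^ 1 else 0 := by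
        split_ifs <;> positivity
      have h6 : 0 ≤ (1 / 8 : ℝ) ^ 1 * (Q / H) ^ 2 := by positivity
      have h7 : s * ((s * (1 / 4) / 2) ^ 1 * 1) = 1 / 8 := by
        calc s * ((s * (1 / 4) / 2) ^ 1 * 1) = (s * s) * (1 / 8) := by ring
          _ = 1 / 8 := by rw [hss, one_mul]
      rw [h7]
      linarith
    · rw [if_neg hsing]
      have h10 : |s * ((s * (1 / 4) / 2) ^ nz T x *
          Av H (fun y => Real.cos (2 * π * (lin T x - √K) * y +
          2 * π * (3 / 8 * (1 - ∑ q : T, (x q : ℝ))))) t)| =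
          (1 / 8 : ℝ) ^ nz T x * |Av H (fun y => Real.cos (2 * π * (lin T x - √K) * y +
          2 * π * (3 / 8 * (1 - ∑ q : T, (x q : ℝ))))) t| := by
        rw [abs_mul, abs_mul, abs_coef hs, hsa, one_mul]
      have h11 := neg_abs_le (s * ((s * (1 / 4) / 2) ^ nz T x *
          Av H (fun y => Real.cos (2 * π * (lin T x - √K) * y +
          2 * π * (3 / 8 * (1 - ∑ q : T, (x q : ℝ))))) t))
      rw [h10] at h11
      refine le_trans ?_ h11
      by_cases hnear : |lin T x - √K| < 1 / (2 * Q)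
      · rw [if_pos hnear]
        have h4 := h1 x hx (fun h h' => hsing ⟨h, h'⟩) hnear
        have h6 : (1 / 8 : ℝ) ^ nz T x ≤ (1 / 4 : ℝ) ^ s₀ * (1 / 2 : ℝ) ^ nz T x := by
          have : (1 / 8 : ℝ) ^ nz T x = (1 / 4 : ℝ) ^ nz T x * (1 / 2 : ℝ) ^ nz T x := by
            rw [← mul_pow]; norm_num
          rw [this]
          apply mul_le_mul_of_nonneg_right _ (by positivity)
          exact pow_le_pow_of_le_one (by norm_num) (by norm_num) h4
        have h12 := mul_le_mul_of_nonneg_left a1 h8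
        linarith
      · rw [if_neg hnear]
        rw [not_lt] at hnear
        have h7 : π / Q ≤ |2 * π * (lin T x - √K)| := by
          rw [abs_mul, abs_of_pos (by positivity : (0 : ℝ) < 2 * π)]
          calc π / Q = 2 * π * (1 / (2 * Q)) := by field_simp
            _ ≤ 2 * π * |lin T x - √K| := by gcongr
        have := mul_le_mul_of_nonneg_left (a2 Q hQ h7) h8
        linarith
  refine le_trans ?_ (Finset.sum_le_sum h3)
  rw [Finset.sum_sub_distrib, Finset.sum_sub_distrib, ← Finset.sum_mul, ← Finset.sum_filter,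
    ← Finset.sum_filter, ← Finset.mul_sum]
  have f1 : (if K ∈ T then (1 / 8 : ℝ) else 0) ≤
      ∑ x ∈ (idx T).filter (fun x => ∃ h : K ∈ T, x = Pi.single ⟨K, h⟩ 1), (1 / 8 : ℝ) := by
    split_ifs with hK
    · have : (Pi.single ⟨K, hK⟩ 1 : T → ℤ) ∈ (idx T).filter (fun x => ∃ h : K ∈ T, x = Pi.single ⟨K, h⟩ 1) :=
        Finset.mem_filter.mpr ⟨single_mem_idx hK, hK, rfl⟩
      exact Finset.single_le_sum (f := fun _ : T → ℤ => (1 / 8 : ℝ)) (fun _ _ => by norm_num) this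
    · exact Finset.sum_nonneg fun _ _ => by norm_num
  have f2 := mul_le_mul_of_nonneg_right (sum_idx_le T) (show (0 : ℝ) ≤ (Q / H) ^ 2 by positivity)
  have f3 := mul_le_mul_of_nonneg_left h2 (show (0 : ℝ) ≤ (1 / 4) ^ s₀ by positivity)
  linarith

/-- the inequality on an arbitrary window, with either sign -/
theorem both_core {s : ℝ} (hs' : s = 1 ∨ s = -1) {b : ℕ → ℝ} (hb : ∀ K, 0 ≤ b K) (hb0 : b 0 = 0)
    (hs : Summable b) {S : ℝ}
    (hbS : ∑' K, b K ≤ S) {T : Finset ℕ} (hT : ∀ q ∈ T, Squarefree q) {N : ℕ}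
    (hTN : T ⊆ Finset.Icc 1 N) {Q H : ℝ} (hQ1 : 1 ≤ Q) (hH : 0 < H) (hSep : Sep Q T)
    {s₀ : ℕ} (hs₀ : (2 * T.card * √N + 1) ^ (2 ^ s₀) ≤ 2 * Q)
    {β : ℝ} (hβ : 0 ≤ β) {t : ℝ} (hG : ∀ y, t - H ≤ y → y ≤ t + H → s * Gs b y ≤ β) :
    1 / (8 * π) * ∑ K ∈ T, b K - S * ((1 / 4) ^ s₀ + 2 ^ T.card * (Q / H) ^ 2)
      ≤ β * (1 + 2 ^ T.card * (Q / H) ^ 2) := by
  classical
  have hQ : 0 < Q := by linarith
  have h1 : ∀ K : ℕ, 1 ≤ K → ∀ x ∈ idx T, (∀ h : K ∈ T, x ≠ Pi.single ⟨K, h⟩ 1) →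
      |lin T x - √K| < 1 / (2 * Q) → s₀ ≤ nz T x := by
    intro K hK x hx hne hnear
    by_contra hlt
    rw [not_le] at hlt
    have := near_short hT hTN hx hK hne hQ1 hlt hs₀
    linarith
  have h2 : ∀ K : ℕ, ∑ x ∈ (idx T).filter (fun x => |lin T x - √K| < 1 / (2 * Q)),
      (1 / 2 : ℝ) ^ nz T x ≤ 1 := fun K => near_sum hQ hSep _
  have hπ := Real.pi_pos
  set E : ℝ := (1 / 4) ^ s₀ + 2 ^ T.card * (Q / H) ^ 2 with hE
  have hE0 : 0 ≤ E := by positivity
  obtain ⟨σ, hσd⟩ : ∃ σ : ℝ, σ = s * (1 / 4) := ⟨_, rfl⟩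
  have hσ : |σ| ≤ 1 := by
    rw [hσd, abs_mul]
    have : |s| = 1 := by rcases hs' with rfl | rfl <;> simp
    rw [this, one_mul, abs_of_pos (by norm_num)]
    norm_num
  have hW0 : ∀ y, 0 ≤ Wr σ T y := Wr_nonneg hσ T
  have hWB : ∀ y, |Wr σ T y| ≤ 2 ^ T.card := fun y => by
    rw [abs_of_nonneg (hW0 y)]; exact Wr_le hσ T y
  have hWc := continuous_Wr σ T
  have hGc := continuous_Gs hb hs
  -- positivity
  have k1 : 0 ≤ Av H (fun y => Wr σ T y * (β - s * Gs b y)) t := by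
    refine le_Av hH (by fun_prop) fun y hy1 hy2 => ?_
    exact mul_nonneg (hW0 y) (sub_nonneg.mpr (hG y (by linarith) (by linarith)))
  have k2 : Av H (fun y => Wr σ T y * (β - s * Gs b y)) t
      = β * Av H (Wr σ T) t - s * Av H (fun y => Wr σ T y * Gs b y) t := by
    unfold Av
    rw [← intervalIntegral.integral_const_mul, ← intervalIntegral.integral_const_mul,
      ← intervalIntegral.integral_sub]
    · refine intervalIntegral.integral_congr fun u _ => ?_
      simp only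
      ring
    · apply Continuous.intervalIntegrable
      fun_prop
    · apply Continuous.intervalIntegrable
      fun_prop
  have k3 : Av H (Wr σ T) t ≤ 1 + 2 ^ T.card * (Q / H) ^ 2 := by
    rw [hσd]; exact Av_Wr_s hs' hQ hH hSep t
  have k4 := (Av_mul_Gs hb hs hWc hWB hH t).mul_left s
  -- lower bound for the series
  have k5 : ∀ K : ℕ, (1 / (8 * π)) * (if K ∈ T then b K else 0) - E * b K ≤ s * (b K * (1 / π) *
      Av H (fun y => Wr σ T y * Real.cos (2 * π * (y * √K) - 3 * π / 4)) t) := by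
    intro K
    rcases Nat.eq_zero_or_pos K with rfl | hK
    · rw [hb0]; simp
    · have h3 := Av_Wr_cos_s hs' hQ hH (T := T) (h1 K hK) (h2 K) t
      rw [← hσd] at h3
      have hbK := hb K
      have h4 : 0 ≤ b K * (1 / π) := by positivity
      have h5 := mul_le_mul_of_nonneg_left h3 h4
      have e5 : b K * (1 / π) * (s * Av H (fun y => Wr σ T y *
          Real.cos (2 * π * (y * √K) - 3 * π / 4)) t) = s * (b K * (1 / π) *
          Av H (fun y => Wr σ T y * Real.cos (2 * π * (y * √K) - 3 * π / 4)) t) := by ring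
      rw [e5] at h5
      refine le_trans ?_ h5
      rw [← hE]
      have h6 : b K * (1 / π) * E ≤ E * b K := by
        have : 1 / π ≤ 1 := by rw [div_le_one hπ]; linarith [Real.pi_gt_three]
        have h7 : 0 ≤ b K * E := mul_nonneg hbK hE0
        calc b K * (1 / π) * E = (b K * E) * (1 / π) := by ring
          _ ≤ (b K * E) * 1 := mul_le_mul_of_nonneg_left this h7
          _ = E * b K := by ring
      have h7 : (1 / (8 * π)) * (if K ∈ T then b K else 0) = b K * (1 / π) * (if K ∈ T then (1 / 8 : ℝ) else 0) := by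
        split_ifs
        · field_simp
        · ring
      rw [h7, mul_sub]
      linarith
  have hsI : Summable (fun K : ℕ => if K ∈ T then b K else 0) :=
    summable_of_ne_finset_zero (s := T) fun K hK => if_neg hK
  have k6 := ((hsI.mul_left (1 / (8 * π))).sub (hs.mul_left E)).tsum_le_tsum k5 k4.summable
  rw [(hsI.mul_left (1 / (8 * π))).tsum_sub (hs.mul_left E), tsum_mul_left, tsum_mul_left,
    tsum_eq_sum (s := T) (fun K hK => if_neg hK), k4.tsum_eq] at k6
  have k7 : ∑ K ∈ T, (if K ∈ T then b K else 0) = ∑ K ∈ T, b K :=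
    Finset.sum_congr rfl fun K hK => if_pos hK
  rw [k7] at k6
  have k8 : E * ∑' K, b K ≤ S * E := by
    rw [mul_comm]; exact mul_le_mul_of_nonneg_right hbS hE0
  have k9 := mul_le_mul_of_nonneg_left k3 hβ
  rw [k2] at k1
  linarith

end

end Pool.Agent.Helper60.GP
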