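import Mathlib
import Pool.Agent.Helper60.GP.Defs
import Pool.Agent.Helper22.RZ.Final

/-!
# If one sign is small, the other is large
-/

open Filter MeasureTheory Set
open scoped Real

namespace Pool.Agent.Helper60.GP

open Pool.Agent.Helper22.GC Pool.Agent.Helper53.OM Pool.Agent.Helper22.RZ

noncomputable section

/-- one sign small forces the other sign to be large -/
theorem one_sided_of (hmain : ∃ c : ℝ, 0 < c ∧ ∃ Y₀ : ℝ, ∀ X Y A B : ℝ, 2 ≤ X → Y₀ ≤ Y →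
    (∀ R, X ≤ R → R ≤ X * Y → -(B * √R) ≤ Pe R ∧ Pe R ≤ A * √R) →
    c * Real.log Y * (Real.log (Real.log Y)) ^ (3 * kap - 4) ≤ A * B ^ 3) 
    (ε θ K : ℝ) (hε : 0 < ε) (hθ : 0 ≤ θ) (hθ' : θ ≤ 1 / 3) :
    ∃ c : ℝ, 0 < c ∧ ∃ X₀ : ℝ, ∀ X : ℝ, X₀ ≤ X →
      (∀ R, X ≤ R → R ≤ X ^ (1 + ε) → -(K * √R * (Real.log R) ^ θ) ≤ Pe R) →
      ∃ R, X ≤ R ∧ R ≤ X ^ (1 + ε) ∧
        c * √R * ((Real.log R) ^ (1 - 3 * θ) * (Real.log (Real.log R)) ^ (3 * kap - 4)) < Pe R := by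
  obtain ⟨c, hc, Y₀, h⟩ := hmain
  obtain ⟨K', hK'⟩ : ∃ K' : ℝ, K' = max K 1 := ⟨_, rfl⟩
  have hK1 : 1 ≤ K' := hK' ▸ le_max_right _ _
  have hKK : K ≤ K' := hK' ▸ le_max_left _ _
  obtain ⟨e, he⟩ : ∃ e : ℝ, e = 3 * kap - 4 := ⟨_, rfl⟩
  have hkap : e ≤ 0 := by rw [he]; have := kap_le'; linarith
  rw [← he] at h ⊢
  -- the constant
  obtain ⟨c', hc'⟩ : ∃ c' : ℝ, c' = c * ε / (2 * K' ^ 3 * (1 + ε) ^ (2 : ℝ)) := ⟨_, rfl⟩
  have h1ε : 0 < 1 + ε := by linarith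
  have hc'0 : 0 < c' := by rw [hc']; positivity
  refine ⟨c', hc'0, ?_⟩
  have t1 : Tendsto Real.log atTop atTop := Real.tendsto_log_atTop
  have t2 : Tendsto (fun V : ℝ => Real.log (Real.log V)) atTop atTop := t1.comp t1
  have t3 : Tendsto (fun X : ℝ => X ^ ε) atTop atTop := tendsto_rpow_atTop hε
  have t4 : Tendsto (fun X : ℝ => Real.log (Real.log (X ^ ε))) atTop atTop := t2.comp t3
  obtain ⟨X₀, hX₀⟩ := eventually_atTop.1 ((t2.eventually_ge_atTop (1 : ℝ)).and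
    ((t4.eventually_ge_atTop (1 : ℝ)).and ((t3.eventually_ge_atTop Y₀).and
    ((eventually_ge_atTop (3 : ℝ)).and (t2.eventually_ge_atTop (Real.log ε))))))
  refine ⟨X₀, fun X hX hlow => ?_⟩
  obtain ⟨f1, f2, f3, f4, f5⟩ := hX₀ X hX
  by_contra hcon
  push Not at hcon
  have hX0 : 0 < X := by linarith
  set x : ℝ := Real.log X with hx
  have hx1 : 1 ≤ x := by
    rw [hx, Real.le_log_iff_exp_le hX0]
    linarith [Real.exp_one_lt_d9]
  have hx0 : 0 < x := by linarith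
  have hXX : X ^ (1 + ε) = X * X ^ ε := by rw [Real.rpow_add hX0, Real.rpow_one]
  have hlogY : Real.log (X ^ ε) = ε * x := by rw [Real.log_rpow hX0]
  set A : ℝ := c' * (((1 + ε) * x) ^ (1 - 3 * θ) * (Real.log x) ^ e) with hA
  set B : ℝ := K' * ((1 + ε) * x) ^ θ with hB
  have key := h X (X ^ ε) A B (by linarith) f3 (fun R hR1 hR2 => by
    rw [← hXX] at hR2
    have hR0 : 0 < R := by linarith
    have hsR : 0 ≤ √R := Real.sqrt_nonneg _
    have hlR1 : x ≤ Real.log R := Real.log_le_log hX0 hR1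
    have hlR2 : Real.log R ≤ (1 + ε) * x := by
      have := Real.log_le_log hR0 hR2
      rwa [Real.log_rpow hX0] at this
    have hlR0 : 0 < Real.log R := by linarith
    constructor
    · refine le_trans ?_ (hlow R hR1 hR2)
      rw [neg_le_neg_iff]
      have h1 : (Real.log R) ^ θ ≤ ((1 + ε) * x) ^ θ := Real.rpow_le_rpow hlR0.le hlR2 hθ
      have h2 : 0 ≤ (Real.log R) ^ θ := Real.rpow_nonneg hlR0.le _
      calc K * √R * (Real.log R) ^ θ ≤ K' * √R * (Real.log R) ^ θ := by gcongr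
        _ ≤ K' * √R * ((1 + ε) * x) ^ θ := by gcongr
        _ = B * √R := by rw [hB]; ring
    · refine (hcon R hR1 hR2).trans ?_
      have h1 : (Real.log R) ^ (1 - 3 * θ) ≤ ((1 + ε) * x) ^ (1 - 3 * θ) :=
        Real.rpow_le_rpow hlR0.le hlR2 (by linarith)
      have h3 : Real.log x ≤ Real.log (Real.log R) := Real.log_le_log hx0 hlR1
      have h4 : (Real.log (Real.log R)) ^ e ≤ (Real.log x) ^ e :=
        Real.rpow_le_rpow_of_nonpos (by linarith) h3 hkap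
      have h5 : 0 ≤ (Real.log (Real.log R)) ^ e := Real.rpow_nonneg (by linarith) _
      calc c' * √R * ((Real.log R) ^ (1 - 3 * θ) * (Real.log (Real.log R)) ^ e)
          ≤ c' * √R * (((1 + ε) * x) ^ (1 - 3 * θ) * (Real.log x) ^ e) := by gcongr
        _ = A * √R := by rw [hA]; ring)
  rw [hlogY] at key f2
  -- compare
  have hlog : Real.log (ε * x) ≤ 2 * Real.log x := by
    rw [Real.log_mul hε.ne' hx0.ne']
    linarith
  have h6 : (2 * Real.log x) ^ e ≤ (Real.log (ε * x)) ^ e :=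
    Real.rpow_le_rpow_of_nonpos (by linarith) hlog hkap
  have h7 : (1 / 2 : ℝ) * (Real.log x) ^ e ≤ (2 * Real.log x) ^ e := by
    rw [Real.mul_rpow (by norm_num) (by linarith)]
    have h8 : 0 ≤ (Real.log x) ^ e := Real.rpow_nonneg (by linarith) _
    apply mul_le_mul_of_nonneg_right _ h8
    have hk := kap_ge
    calc (1 / 2 : ℝ) = (2 : ℝ) ^ (-1 : ℝ) := by rw [Real.rpow_neg_one]; norm_num
      _ ≤ (2 : ℝ) ^ e := Real.rpow_le_rpow_of_exponent_le (by norm_num) (by rw [he]; linarith)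
  have h9 : 0 < (Real.log x) ^ e := Real.rpow_pos_of_pos (by linarith) _
  have h10 : c * (ε * x) * (1 / 2 * (Real.log x) ^ e) ≤ A * B ^ 3 := by
    refine le_trans ?_ key
    have : 0 ≤ c * (ε * x) := by positivity
    exact mul_le_mul_of_nonneg_left (h7.trans h6) this
  have hz0 : 0 < (1 + ε) * x := by positivity
  have h11 : A * B ^ 3 = c' * K' ^ 3 * ((1 + ε) * x) * (Real.log x) ^ e := by
    have h12 : (((1 + ε) * x) ^ θ) ^ 3 = ((1 + ε) * x) ^ (3 * θ) := by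
      rw [← Real.rpow_natCast, ← Real.rpow_mul hz0.le]
      congr 1
      push_cast
      ring
    have h13 : ((1 + ε) * x) ^ (1 - 3 * θ) * ((1 + ε) * x) ^ (3 * θ) = (1 + ε) * x := by
      rw [← Real.rpow_add hz0]
      norm_num
    rw [hA, hB, mul_pow, h12]
    calc c' * (((1 + ε) * x) ^ (1 - 3 * θ) * (Real.log x) ^ e) * (K' ^ 3 * ((1 + ε) * x) ^ (3 * θ))
        = c' * K' ^ 3 * (((1 + ε) * x) ^ (1 - 3 * θ) * ((1 + ε) * x) ^ (3 * θ)) * (Real.log x) ^ e := by ring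
      _ = _ := by rw [h13]
  rw [h11, hc'] at h10
  have h14 : c * ε / (2 * K' ^ 3 * (1 + ε) ^ (2 : ℝ)) * K' ^ 3 * ((1 + ε) * x) * (Real.log x) ^ e
      = c * (ε * x) * (1 / 2 * (Real.log x) ^ e) / (1 + ε) := by
    rw [Real.rpow_two]
    have : K' ≠ 0 := by linarith
    field_simp
  rw [h14, le_div_iff₀ h1ε] at h10
  have h15 : 0 < c * (ε * x) * (1 / 2 * (Real.log x) ^ e) := by positivity
  nlinarith

end

end Pool.Agent.Helper60.GP
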