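import Mathlib
import Pool.Agent.Helper60.GP.Both
import Pool.Agent.Helper27.GPF.Fin

/-!
# Large values of both signs in short intervals
-/

open Filter MeasureTheory Set
open scoped Real Topology

namespace Pool.Agent.Helper60.GP

open Pool.Agent.Helper22.GC Pool.Agent.Helper53.OM Pool.Agent.Helper22.RZ

noncomputable section

lemma lin_ne_zero {T : Finset ℕ} (hT : ∀ q ∈ T, Squarefree q) {x : T → ℤ} (hx : x ≠ 0) :
    lin T x ≠ 0 := by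
  classical
  intro h
  apply hx
  have h1 : ∑ q ∈ T, (((fun q : ℕ => if h : q ∈ T then x ⟨q, h⟩ else 0) q : ℤ) : ℝ) * √(q : ℝ) = 0 := by
    rw [← h, lin, ← Finset.sum_coe_sort T
      (fun q => (((fun q : ℕ => if h : q ∈ T then x ⟨q, h⟩ else 0) q : ℤ) : ℝ) * √(q : ℝ))]
    refine Finset.sum_congr rfl fun q _ => ?_
    simp only [Finset.coe_mem, dif_pos]
  have h2 := Pool.Agent.Helper78.GC.sqrt_indep T hT _ h1
  funext q
  have h3 := h2 q q.2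
  simpa using h3

lemma exists_sep {T : Finset ℕ} (hT : ∀ q ∈ T, Squarefree q) :
    ∃ Q₀ : ℝ, ∀ Q, Q₀ ≤ Q → Sep Q T := by
  classical
  refine ⟨∑ x ∈ idx T, 1 / |lin T x| + 1, fun Q hQ x hx h0 => ?_⟩
  have h1 : 0 < |lin T x| := abs_pos.mpr (lin_ne_zero hT h0)
  have h2 : 1 / |lin T x| ≤ ∑ x ∈ idx T, 1 / |lin T x| :=
    Finset.single_le_sum (f := fun x : T → ℤ => 1 / |lin T x|) (fun _ _ => by positivity) hx
  have h3 : 0 ≤ 1 / |lin T x| := by positivity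
  have hQ0 : 0 < Q := by linarith
  rw [one_div_le hQ0 h1]
  linarith

lemma gs_win {Cg C1 : ℝ} (hCg : 0 < Cg) (hC1 : 0 < C1)
    (hup : ∀ (δ β X Y : ℝ), 0 < δ → δ ≤ 1 / 2 → 2 ≤ X → δ * Y ≤ 1 →
      0 ≤ β → (∀ R, X ≤ R → R ≤ Y → Pe R ≤ β * √R) →
      ∀ R, X ≤ R → R + 1 ≤ Y → gI δ R ≤ 2 * β + Cg)
    (hlow : ∀ (δ β X Y : ℝ), 0 < δ → δ ≤ 1 / 2 → 2 ≤ X → δ * Y ≤ 1 →
      (∀ R, X ≤ R → R ≤ Y → β * √R ≤ Pe R) →
      ∀ R, X + 1 ≤ R → R ≤ Y → min β (β / 2) - C1 ≤ gI δ R)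
    {s : ℝ} (hs : s = 1 ∨ s = -1) {X Z A : ℝ} (hX : 2 ≤ X) (hZ : 32 ≤ Z) (hA : 0 ≤ A)
    (hPe : ∀ R, X ≤ R → R ≤ X + Z → s * Pe R ≤ A * √R) {N : ℕ} (hN : 1 ≤ N) {δ : ℝ}
    (hδ : δ = 1 / (X + Z + 13 * √N)) :
    0 < δ ∧ 4 * π * δ * √N ≤ 1 ∧
      ∀ z, X + Z / 2 - Z / 8 ≤ z → z ≤ X + Z / 2 + Z / 8 →
        s * Gs (bK δ N) z ≤ 2 * A + (Cg + C1) := by
  have hN1 : (1 : ℝ) ≤ N := by exact_mod_cast hN
  have hsN : 1 ≤ √(N : ℝ) := by rw [Real.one_le_sqrt]; exact hN1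
  have hδ0 : 0 < δ := by rw [hδ]; positivity
  have hδ2 : δ ≤ 1 / 2 := by
    rw [hδ]
    apply one_div_le_one_div_of_le (by norm_num)
    nlinarith
  have hδY : δ * (X + Z) ≤ 1 := by
    rw [hδ, one_div_mul_eq_div, div_le_one (by positivity)]
    nlinarith
  have hδN : 4 * π * δ * √N ≤ 1 := by
    have h1 : 4 * π * δ * √N = 4 * π * √N / (X + Z + 13 * √N) := by rw [hδ]; ring
    rw [h1, div_le_one (by positivity)]
    have := Real.pi_lt_d2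
    nlinarith
  refine ⟨hδ0, hδN, ?_⟩
  intro z hz1 hz2
  have hh : 1 / (4 * √(N : ℝ)) ≤ 1 / 4 := by
    apply one_div_le_one_div_of_le (by norm_num)
    linarith
  rw [← Av_eq_Gs hδ0 hN]
  rcases hs with rfl | rfl
  · have h1 := hup δ A X (X + Z) hδ0 hδ2 hX hδY hA (fun R h1 h2 => by
      have := hPe R h1 h2
      linarith)
    rw [one_mul]
    refine (Av_le' (by positivity) (continuous_gI hδ0) (m := 2 * A + Cg)
      fun x hx1 hx2 => h1 x ?_ ?_).trans (by linarith)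
    · linarith
    · linarith
  · have h1 := hlow δ (-A) X (X + Z) hδ0 hδ2 hX hδY (fun R h1 h2 => by
      have := hPe R h1 h2
      linarith)
    have h2 : min (-A) (-A / 2) = -A := min_eq_left (by linarith)
    rw [h2] at h1
    have h3 := le_Av (h := 1 / (4 * √(N : ℝ))) (by positivity) (continuous_gI hδ0) (t := z)
      (m := -A - C1) fun x hx1 hx2 => h1 x (by linarith) (by linarith)
    linarith

/-- values of both signs larger than any given constant in all intervals of a certain length -/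
theorem local_big (K : ℝ) : ∃ ℓ₀ : ℝ, 32 ≤ ℓ₀ ∧ ∀ s : ℝ, (s = 1 ∨ s = -1) → ∀ X Z : ℝ, 2 ≤ X →
    ℓ₀ ≤ Z → ∃ R, X ≤ R ∧ R ≤ X + Z ∧ K * √R < s * Pe R := by
  classical
  obtain ⟨Cg, hCg, hup⟩ := gI_upper
  obtain ⟨C1, hC1, hlow⟩ := gI_lower
  obtain ⟨c₁, hc₁, V₀, hcount⟩ := count_sqf
  have hπ := Real.pi_pos
  obtain ⟨A, hAd⟩ : ∃ A : ℝ, A = max K 0 := ⟨_, rfl⟩
  have hA0 : 0 ≤ A := by rw [hAd]; exact le_max_right _ _
  have hAK : K ≤ A := by rw [hAd]; exact le_max_left _ _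
  obtain ⟨β, hβ⟩ : ∃ β : ℝ, β = 2 * A + (Cg + C1) := ⟨_, rfl⟩
  have hβ0 : 0 ≤ β := by rw [hβ]; linarith
  -- the level
  have t1 : Tendsto (fun V : ℝ => V ^ (1 / 4 : ℝ)) atTop atTop := tendsto_rpow_atTop (by norm_num)
  obtain ⟨V, hV⟩ := ((t1.eventually_gt_atTop (40 * π * (2 * β + 1) / c₁)).and
    ((eventually_ge_atTop V₀).and (eventually_ge_atTop (Real.exp 1)))).exists
  obtain ⟨hV1, hV2, hV3⟩ := hV
  have hV0 : 0 < V := (Real.exp_pos 1).trans_le hV3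
  have hVlog : 1 ≤ Real.log V := by rw [Real.le_log_iff_exp_le hV0]; exact hV3
  have hV1' : 1 ≤ V := by
    have := Real.exp_one_gt_d9
    linarith
  obtain ⟨M, hM1, hM2, hM3, hM4⟩ := hcount V hV2
  obtain ⟨N, hN⟩ : ∃ N : ℕ, N = ⌊V ^ 2⌋₊ := ⟨_, rfl⟩
  rw [← hN] at hM1
  have hN1 : 1 ≤ N := by
    rw [hN]
    apply Nat.le_floor
    push_cast
    exact one_le_pow₀ hV1'
  have hkap1 : 1 ≤ kap := by have := kap_ge; linarith
  have hMc : c₁ * V ≤ M.card := by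
    refine le_trans ?_ hM4
    have : 1 ≤ Real.log V ^ (kap - 1) := Real.one_le_rpow hVlog (by linarith)
    exact le_mul_of_one_le_right (by positivity) this
  have hMs : ∀ δ : ℝ, 0 < δ → 4 * π * δ * √N ≤ 1 → c₁ * V ^ (1 / 4 : ℝ) / 5 ≤ ∑ K ∈ M, bK δ N K := by
    intro δ hδ0 hδN
    have h1 : (M.card : ℝ) * (V ^ (-(3 / 4) : ℝ) / 5) ≤ ∑ K ∈ M, bK δ N K := by
      rw [← nsmul_eq_mul]
      refine Finset.card_nsmul_le_sum _ _ _ fun K hK => ?_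
      have h2 := Finset.mem_Icc.mp (hM1 hK)
      refine le_trans ?_ (bK_lower hδ0 h2.1 h2.2 hδN)
      have := hM3 K hK
      linarith
    refine le_trans ?_ h1
    have h2 : V ^ (1 / 4 : ℝ) = V * V ^ (-(3 / 4) : ℝ) := by
      nth_rewrite 2 [← Real.rpow_one V]
      rw [← Real.rpow_add hV0]
      norm_num
    rw [h2]
    have h3 : 0 ≤ V ^ (-(3 / 4) : ℝ) / 5 := by positivity
    calc c₁ * (V * V ^ (-(3 / 4) : ℝ)) / 5 = c₁ * V * (V ^ (-(3 / 4) : ℝ) / 5) := by ring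
      _ ≤ _ := mul_le_mul_of_nonneg_right hMc h3
  -- the other parameters
  obtain ⟨S, hS⟩ : ∃ S : ℝ, S = 90 * (N : ℝ) ^ (1 / 4 : ℝ) := ⟨_, rfl⟩
  have hS0 : 0 ≤ S := by rw [hS]; positivity
  obtain ⟨s₀, hs₀⟩ : ∃ s₀ : ℕ, S * (1 / 4 : ℝ) ^ s₀ ≤ 1 / 2 := by
    have h1 : Tendsto (fun n : ℕ => S * (1 / 4 : ℝ) ^ n) atTop (𝓝 (S * 0)) :=
      (tendsto_pow_atTop_nhds_zero_of_lt_one (by norm_num) (by norm_num)).const_mul S
    rw [mul_zero] at h1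
    obtain ⟨n, hn⟩ := (h1.eventually_le_const (show (0 : ℝ) < 1 / 2 by norm_num)).exists
    exact ⟨n, hn⟩
  obtain ⟨Q₀, hQ₀⟩ := exists_sep hM2
  obtain ⟨Q, hQ⟩ : ∃ Q : ℝ, Q = max Q₀ (max 1 ((2 * M.card * √N + 1) ^ (2 ^ s₀))) := ⟨_, rfl⟩
  have hQs : Sep Q M := hQ₀ Q (by rw [hQ]; exact le_max_left _ _)
  have hQ1 : 1 ≤ Q := by rw [hQ]; exact (le_max_left _ _).trans (le_max_right _ _)
  have hQ2 : (2 * M.card * √N + 1) ^ (2 ^ s₀) ≤ 2 * Q := by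
    have : (2 * M.card * √N + 1) ^ (2 ^ s₀) ≤ Q := by
      rw [hQ]; exact (le_max_right _ _).trans (le_max_right _ _)
    linarith
  have h2 : Tendsto (fun Z : ℝ => (S + 1) * (2 ^ M.card * (Q / (Z / 8)) ^ 2)) atTop
      (𝓝 ((S + 1) * (2 ^ M.card * 0 ^ 2))) := by
    refine Tendsto.const_mul _ (Tendsto.const_mul _ (Tendsto.pow ?_ 2))
    exact Tendsto.const_div_atTop (tendsto_id.atTop_div_const (by norm_num)) Q
  rw [zero_pow (by norm_num), mul_zero, mul_zero] at h2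
  obtain ⟨ℓ₀, hℓ₀⟩ := eventually_atTop.1 (h2.eventually_le_const (show (0 : ℝ) < 1 / 2 by norm_num))
  refine ⟨max ℓ₀ 32, le_max_right _ _, ?_⟩
  intro s hs X Z hX hZ
  by_contra hcon
  push Not at hcon
  have hZ32 : 32 ≤ Z := (le_max_right _ _).trans hZ
  have h3 := hℓ₀ Z ((le_max_left _ _).trans hZ)
  obtain ⟨δ, hδ⟩ : ∃ δ : ℝ, δ = 1 / (X + Z + 13 * √N) := ⟨_, rfl⟩
  obtain ⟨hδ0, hδN, hGs⟩ := gs_win hCg hC1 hup hlow hs hX hZ32 hA0 (fun R h1 h2 =>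
    (hcon R h1 h2).trans (mul_le_mul_of_nonneg_right hAK (Real.sqrt_nonneg _))) hN1 hδ
  rw [← hβ] at hGs
  obtain ⟨hbs, hbt⟩ := summable_bK δ hN1
  rw [← hS] at hbt
  have h4 := both_core hs (bK_nonneg δ N) (by simp [bK, aK_zero]) hbs hbt hM2 hM1 hQ1
    (H := Z / 8) (by linarith) hQs hQ2 hβ0 (t := X + Z / 2) hGs
  have h5 := hMs δ hδ0 hδN
  obtain ⟨E, hE⟩ : ∃ E : ℝ, E = 2 ^ M.card * (Q / (Z / 8)) ^ 2 := ⟨_, rfl⟩
  rw [← hE] at h4 h3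
  have hE0 : 0 ≤ E := by rw [hE]; positivity
  have h6 : E ≤ 1 / 2 := by nlinarith
  have h7 : S * E ≤ 1 / 2 := by nlinarith
  have h8 : β * (1 + E) ≤ 2 * β := by nlinarith
  have h9 : 1 / (8 * π) * ∑ K ∈ M, bK δ N K ≤ 2 * β + 1 := by
    have : S * ((1 / 4) ^ s₀ + E) = S * (1 / 4) ^ s₀ + S * E := by ring
    linarith
  have h10 : 1 / (8 * π) * (c₁ * V ^ (1 / 4 : ℝ) / 5) ≤ 2 * β + 1 :=
    (mul_le_mul_of_nonneg_left h5 (by positivity)).trans h9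
  rw [div_lt_iff₀ hc₁] at hV1
  have h11 : 1 / (8 * π) * (c₁ * V ^ (1 / 4 : ℝ) / 5) = V ^ (1 / 4 : ℝ) * c₁ / (40 * π) := by
    field_simp
    ring
  rw [h11, div_le_iff₀ (by positivity)] at h10
  linarith

end

end Pool.Agent.Helper60.GP
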