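import Mathlib
import Pool.Agent.Helper60.GP.Loc

/-!
# The local product inequality
-/

open Filter MeasureTheory Set
open scoped Real Topology

namespace Pool.Agent.Helper60.GP

open Pool.Agent.Helper22.GC Pool.Agent.Helper53.OM Pool.Agent.Helper22.RZ

noncomputable section

/-- the local product inequality, with both signs -/
theorem local_main : ∃ c : ℝ, 0 < c ∧ ∃ Y₀ : ℝ, ∀ X Y B : ℝ, 2 ≤ X → Y₀ ≤ Y →
    (∀ R, X ≤ R → R ≤ X * Y → -(B * √R) ≤ Pe R) →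
    ∀ s X' A : ℝ, (s = 1 ∨ s = -1) → 2 ≤ X' →
    (∀ R, X' ≤ R → R ≤ X' + X * Y → s * Pe R ≤ A * √R) →
    c * Real.log Y * (Real.log (Real.log Y)) ^ (3 * kap - 4) ≤ A * B ^ 3 := by
  obtain ⟨cr, hcr, Yr, hriesz⟩ := final_uniform_riesz
  obtain ⟨c, C, hc, hC, hminus⟩ := minus_core
  obtain ⟨c₁, hc₁, V₀, hcount⟩ := count_sqf
  obtain ⟨Cu, hCu, hup⟩ := gI_upper
  obtain ⟨Cl, hCl, hlow⟩ := gI_lower
  obtain ⟨Cg, hCgd⟩ : ∃ Cg : ℝ, Cg = Cu + Cl := ⟨_, rfl⟩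
  have hCg : 0 < Cg := by rw [hCgd]; linarith
  obtain ⟨M₀, hM₀, hbig⟩ := local_big Cg
  set D : ℝ := 4 / (c * c₁) with hD
  have hD0 : 0 < D := by positivity
  have hkap0 := kap_ge
  have hkap1 := kap_le'
  have t1 : Tendsto Real.log atTop atTop := Real.tendsto_log_atTop
  have e1 := t1.eventually (eventually_large (c₁ := c₁) (V₀ := V₀) (C := C) hcr hD0)
  obtain ⟨Y₀, hY₀⟩ := eventually_atTop.1 (e1.and (eventually_ge_atTop (max (max Yr 16) M₀)))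
  refine ⟨min Cg (1 / (72576 * D ^ 3)), by positivity, Y₀, ?_⟩
  intro X Y B hX hY hB s X' A hs hX' hA
  obtain ⟨f1, f2⟩ := hY₀ Y hY
  have hY16 : 16 ≤ Y := (le_max_right _ _).trans ((le_max_left _ _).trans f2)
  have hYr : Yr ≤ Y := (le_max_left _ _).trans ((le_max_left _ _).trans f2)
  have hYM : M₀ ≤ Y := (le_max_right _ _).trans f2
  have hX0 : 0 < X := by linarith
  have hY0 : 0 < Y := by linarith
  have hXY : 16 * X ≤ X * Y := by nlinarith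
  have hZM : M₀ ≤ X * Y := by nlinarith
  have hZ32 : 32 ≤ X * Y := by linarith
  set y := Real.log Y with hy
  have hYexp : Y = Real.exp y := (Real.exp_log hY0).symm
  have hL := f1
  obtain ⟨h1, h2, h3, h4, h5, h6, h7, h8⟩ := f1
  have hy0 : 0 < y := by linarith
  set l := Real.log y with hl
  have hl0 : 0 < l := by linarith
  have hl1 : 1 ≤ l := by linarith
  have hl3 : l ^ (3 * kap - 4) ≤ 1 := Real.rpow_le_one_of_one_le_of_nonpos hl1 (by linarith)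
  have hl30 : 0 < l ^ (3 * kap - 4) := Real.rpow_pos_of_pos hl0 _
  -- `B` is large
  have hBge : cr * (y ^ (1 / 4 : ℝ) * l ^ (3 / 4 * (kap - 1))) ≤ B := by
    obtain ⟨R, hR1, hR2, hR3⟩ := hriesz X Y hX hYr
    have hR4 := hB R hR1 hR2
    have hsR : 0 < √R := Real.sqrt_pos.mpr (by linarith)
    have h9 : -(B * √R) ≤ -(cr * √R * gn Y) := hR4.trans hR3
    have h10 : cr * gn Y * √R ≤ B * √R := by linarith
    exact le_of_mul_le_mul_right h10 hsR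
  have hl2 : 1 ≤ l ^ (3 / 4 * (kap - 1)) := Real.one_le_rpow hl1 (by linarith)
  have hB2C : 2 * C < B := by
    refine lt_of_lt_of_le h8 (le_trans ?_ hBge)
    have : 0 < y ^ (1 / 4 : ℝ) := Real.rpow_pos_of_pos hy0 _
    apply mul_le_mul_of_nonneg_left _ hcr.le
    exact le_mul_of_one_le_right this.le hl2
  have hB0 : 0 < B := by linarith
  -- `A` is not small
  have hAge : Cg < A := by
    obtain ⟨R, hR1, hR2, hR3⟩ := hbig s hs X' (X * Y) hX' hZM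
    have hR4 := hA R hR1 hR2
    have hsR : 0 < √R := Real.sqrt_pos.mpr (by linarith)
    exact lt_of_mul_lt_mul_right (hR3.trans_le hR4) hsR.le
  have hA0 : 0 < A := by linarith
  rcases le_total (y ^ (1 / 3 : ℝ)) B with hBy | hBy
  · -- trivial case
    have hB3 : y ≤ B ^ 3 := by
      calc y = (y ^ (1 / 3 : ℝ)) ^ 3 := by
            rw [← Real.rpow_natCast, ← Real.rpow_mul hy0.le]; norm_num
        _ ≤ B ^ 3 := pow_le_pow_left₀ (by positivity) hBy 3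
    calc min Cg (1 / (72576 * D ^ 3)) * y * l ^ (3 * kap - 4) ≤ Cg * y * 1 :=
          mul_le_mul (mul_le_mul_of_nonneg_right (min_le_left _ _) hy0.le) hl3 hl30.le (by positivity)
      _ = Cg * y := mul_one _
      _ ≤ A * B ^ 3 := mul_le_mul hAge.le hB3 hy0.le hA0.le
  -- the main case
  obtain ⟨W, hWdef, hW8, hW38, M, hM1, hM2, hM3, hM4⟩ :=
    level hcr hD0 hc₁ hL hcount hBge hBy
  have hW1 : 1 ≤ W := (Real.one_le_rpow (by linarith) (by norm_num)).trans hW8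
  have hW0 : 0 < W := by linarith
  have hW4 : 1 ≤ W ^ 4 := one_le_pow₀ hW1
  obtain ⟨τ, hτ⟩ : ∃ τ : ℕ, τ = ⌊y / (24 * Real.log y)⌋₊ := ⟨_, rfl⟩
  obtain ⟨L, hLd⟩ : ∃ L : ℕ, L = ⌈W ^ 4⌉₊ := ⟨_, rfl⟩
  obtain ⟨N, hNd⟩ : ∃ N : ℕ, N = ⌊(W ^ 4) ^ 2⌋₊ := ⟨_, rfl⟩
  rw [← hNd] at hM1
  obtain ⟨g1, g2, g3, g4⟩ := tau_facts hL hτ
  obtain ⟨g5, g6⟩ := pow_facts hL hτ hW1 hW38 hLd
  have g7 := err_facts hL hτ hW1 hW38
  have hWL : W ^ 4 ≤ L := by rw [hLd]; exact Nat.le_ceil _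
  have hN1 : 1 ≤ N := by
    rw [hNd]
    apply Nat.le_floor
    push_cast
    exact one_le_pow₀ hW4
  have hNW : (N : ℝ) ≤ (W ^ 4) ^ 2 := by rw [hNd]; exact Nat.floor_le (by positivity)
  have hsN : √(N : ℝ) ≤ W ^ 4 := Real.sqrt_le_iff.mpr ⟨by positivity, hNW⟩
  have hN4 : (N : ℝ) ^ (1 / 4 : ℝ) ≤ W ^ 2 := by
    calc (N : ℝ) ^ (1 / 4 : ℝ) ≤ ((W ^ 4) ^ 2) ^ (1 / 4 : ℝ) :=
          Real.rpow_le_rpow (Nat.cast_nonneg _) hNW (by norm_num)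
      _ = W ^ 2 := by
        rw [show (W ^ 4) ^ 2 = (W ^ 2) ^ 4 by ring, ← Real.rpow_natCast (W ^ 2) 4,
          ← Real.rpow_mul (by positivity)]
        norm_num
  have ht0 : (0 : ℝ) < τ := by exact_mod_cast g1
  have ht1 : (1 : ℝ) ≤ τ := by exact_mod_cast g1
  have hL1 : (1 : ℝ) ≤ L := hW4.trans hWL
  have hW2 : 16 ≤ W ^ 4 := by
    have h9 : (2 : ℝ) ≤ y ^ (1 / 2 : ℝ) := (le_max_right _ _).trans h6
    have h10 : y ^ (1 / 2 : ℝ) ≤ W ^ 4 := by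
      calc y ^ (1 / 2 : ℝ) = (y ^ (1 / 8 : ℝ)) ^ 4 := by
            rw [← Real.rpow_natCast, ← Real.rpow_mul hy0.le]; norm_num
        _ ≤ W ^ 4 := pow_le_pow_left₀ (by positivity) hW8 4
    have h11 : (16 : ℝ) ≤ y ^ (1 / 2 : ℝ) := by
      rw [← Real.sqrt_eq_rpow]
      exact Real.le_sqrt_of_sq_le (by linarith)
    linarith
  have hL2 : 2 ≤ L := by
    have : (2 : ℝ) ≤ L := by linarith
    exact_mod_cast this
  set G : ℝ := (32 * (L : ℝ) ^ 2 * τ) ^ τ with hG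
  obtain ⟨hbase, hbase2, hL21, hLL⟩ := base_facts (show 1 ≤ L by omega) g1
  have hG1 : 1 ≤ G := one_le_pow₀ hbase
  obtain ⟨Q, hQ⟩ : ∃ Q : ℝ, Q = 64 * (L : ℝ) ^ 2 * X * G := ⟨_, rfl⟩
  have hGQ : G ≤ Q := by
    rw [hQ]
    have h9 : 1 ≤ 64 * (L : ℝ) ^ 2 * X := by
      have : 1 * 1 ≤ (64 * (L : ℝ) ^ 2) * X :=
        mul_le_mul (by linarith) (by linarith) zero_le_one (by positivity)
      rwa [one_mul] at this
    exact le_mul_of_one_le_left (by linarith) h9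
  have hQ1 : 1 ≤ Q := hG1.trans hGQ
  obtain ⟨T, hTM, hTS, hTmax⟩ := exists_max hQ1 M
  obtain ⟨hLG, h10⟩ := tail_facts hL hτ hX hYexp g5 (by linarith) g6 hQ
  -- many independent frequencies
  have hTτ : τ < T.card := by
    by_contra hcon
    push Not at hcon
    obtain ⟨R, hR1, hR2, hR3⟩ := hminus N L τ M T X Q hN1 hL2 g1 hM1 hcon hX (le_of_eq hQ.symm) hTmax
    have hR4 : R ≤ X * Y := by
      refine hR2.trans ?_
      calc 4 * X * G * (L : ℝ) ^ 2 = X * (4 * (L : ℝ) ^ 2 * G) := by ring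
        _ ≤ X * Y := mul_le_mul_of_nonneg_left hLG hX0.le
    have hR5 := hB R hR1 hR4
    have hsR : 0 < √R := Real.sqrt_pos.mpr (by linarith)
    have h10 : (N : ℝ) ^ (1 / 4 : ℝ) / √L ≤ 1 := by
      have hsL : W ^ 2 ≤ √(L : ℝ) := by
        apply Real.le_sqrt_of_sq_le
        calc (W ^ 2) ^ 2 = W ^ 4 := by ring
          _ ≤ (L : ℝ) := hWL
      rw [div_le_one (lt_of_lt_of_le (by positivity) hsL)]
      exact hN4.trans hsL
    have h11 : c * (c₁ / 2 * D * B) = 2 * B := by rw [hD]; field_simp; ring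
    have h12 : c * (c₁ / 2 * D * B) ≤
        c * ∑ K ∈ M, (gr K : ℝ) * (K : ℝ) ^ (-(3 / 4) : ℝ) := mul_le_mul_of_nonneg_left hM4 hc.le
    have h13 : C * (N : ℝ) ^ (1 / 4 : ℝ) / √L ≤ C := by
      rw [mul_div_assoc]
      exact mul_le_of_le_one_right hC.le h10
    have h14 : -(B * √R) ≤ √R * (C + C * (N : ℝ) ^ (1 / 4 : ℝ) / √L
        - c * ∑ K ∈ M, (gr K : ℝ) * (K : ℝ) ^ (-(3 / 4) : ℝ)) := hR5.trans hR3
    have h15 : √R * (-B) ≤ √R * (C + C * (N : ℝ) ^ (1 / 4 : ℝ) / √L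
        - c * ∑ K ∈ M, (gr K : ℝ) * (K : ℝ) ^ (-(3 / 4) : ℝ)) := by linarith
    have h16 := le_of_mul_le_mul_left h15 hsR
    linarith
  obtain ⟨T', hT'1, hT'2⟩ := Finset.exists_subset_card_eq hTτ.le
  obtain ⟨δ, hδ⟩ : ∃ δ : ℝ, δ = 1 / (X' + X * Y + 13 * √N) := ⟨_, rfl⟩
  obtain ⟨hδ0, hδN, hGs⟩ := gs_win hCu hCl hup hlow hs hX' hZ32 hA0.le hA hN1 hδ
  rw [← hCgd] at hGs
  obtain ⟨hbs, hbt⟩ := summable_bK δ hN1
  have hT'N : T' ⊆ Finset.Icc 1 N := (hT'1.trans hTM).trans hM1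
  -- the parameter `s₀`
  obtain ⟨s₀, hs₀⟩ : ∃ s₀ : ℕ, s₀ = Nat.log 2 τ := ⟨_, rfl⟩
  obtain ⟨hs1, hs3⟩ := s_facts g1 hs₀
  have hs4 : (2 * (T'.card : ℝ) * √N + 1) ^ (2 ^ s₀) ≤ 2 * Q := by
    rw [hT'2]
    exact norm_facts (by omega) g1 hs1 (Real.sqrt_nonneg _) (hsN.trans hWL) hGQ
  have h9 := both_core hs (bK_nonneg δ N) (by simp [bK, aK_zero]) hbs hbt
    (fun q hq => hM2 q (hTM (hT'1 hq))) hT'N hQ1 (H := X * Y / 8) (by positivity)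
    (hTS.mono hT'1) hs4 (β := 2 * A + Cg) (by positivity) (t := X' + X * Y / 2) hGs
  rw [hT'2] at h9
  have h11 : (0 : ℝ) ≤ 2 ^ τ * (Q / (X * Y / 8)) ^ 2 := by positivity
  have h12 : Real.exp (-y) ≤ 1 := by
    rw [Real.exp_le_one_iff]; linarith
  -- the main term
  have hWm : W ^ (-3 : ℝ) = (W ^ 3)⁻¹ := by
    rw [Real.rpow_neg hW0.le]
    congr 1
    rw [show (3 : ℝ) = ((3 : ℕ) : ℝ) by norm_num, Real.rpow_natCast]
  have h13 : (τ : ℝ) * (W ^ 3)⁻¹ / 5 ≤ ∑ K ∈ T', bK δ N K := by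
    have k1 : (T'.card : ℝ) * ((W ^ 3)⁻¹ / 5) ≤ ∑ K ∈ T', bK δ N K := by
      rw [← nsmul_eq_mul]
      refine Finset.card_nsmul_le_sum _ _ _ fun K hK => ?_
      have k2 := Finset.mem_Icc.mp (hT'N hK)
      refine le_trans ?_ (bK_lower hδ0 k2.1 k2.2 hδN)
      have k3 := hM3 K (hTM (hT'1 hK))
      rw [hWm] at k3
      linarith
    rw [hT'2] at k1
    linarith
  have hWi : 0 < (W ^ 3)⁻¹ := by positivity
  have h14 : (τ : ℝ) * (W ^ 3)⁻¹ / 126 ≤ 1 / (8 * π) * ∑ K ∈ T', bK δ N K := by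
    have k1 : (5 : ℝ) / 126 ≤ 1 / (8 * π) := by
      rw [div_le_div_iff₀ (by norm_num) (by positivity)]
      have := Real.pi_lt_d2
      linarith
    have k2 : 0 ≤ ∑ K ∈ T', bK δ N K := Finset.sum_nonneg fun K _ => bK_nonneg δ N K
    calc (τ : ℝ) * (W ^ 3)⁻¹ / 126 = 5 / 126 * ((τ : ℝ) * (W ^ 3)⁻¹ / 5) := by ring
      _ ≤ 5 / 126 * ∑ K ∈ T', bK δ N K := mul_le_mul_of_nonneg_left h13 (by norm_num)
      _ ≤ _ := mul_le_mul_of_nonneg_right k1 k2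
  have h15 : 90 * (N : ℝ) ^ (1 / 4 : ℝ) * ((1 / 4) ^ s₀ + 2 ^ τ * (Q / (X * Y / 8)) ^ 2) ≤
      (τ : ℝ) * (W ^ 3)⁻¹ / 252 := by
    refine le_trans ?_ g7
    apply mul_le_mul _ (by linarith) (by positivity) (by positivity)
    linarith
  have h16 : (2 * A + Cg) * (1 + 2 ^ τ * (Q / (X * Y / 8)) ^ 2) ≤ 6 * A := by
    calc (2 * A + Cg) * (1 + 2 ^ τ * (Q / (X * Y / 8)) ^ 2) ≤ (3 * A) * 2 := by
          apply mul_le_mul (by linarith) (by linarith) (by positivity) (by positivity)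
      _ = 6 * A := by ring
  have h17 : (τ : ℝ) * (W ^ 3)⁻¹ / 1512 ≤ A := by linarith
  exact end_facts hD0 hl0 hy0 hB0 hWdef h17 g3

end

end Pool.Agent.Helper60.GP
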